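import Mathlib.Algebra.MonoidAlgebra.Lift
import Mathlib.Algebra.MonoidAlgebra.Basic
import Mathlib.RingTheory.Congruence.Hom
import Mathlib.RingTheory.Congruence.Basic
import Mathlib.RingTheory.Valuation.Basic
import Mathlib.Algebra.Order.Kleene
import Mathlib.LinearAlgebra.FiniteDimensional.Lemmas
import Mathlib.Algebra.Algebra.Operations
import Mathlib.RingTheory.Ideal.Quotient.Basic
import Mathlib.RingTheory.Ideal.Quotient.Operations
import Mathlib.Tactic

/-!
MP_58a9d8_ag: cancellative elements of tropicalized prime quotients are classes of terms.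
-/

set_option autoImplicit false

namespace Pool.Agent.Results.MP_58a9d8_ag.CancellativeTerms

open AddMonoidAlgebra

/-! ### The totally ordered semifield -/

/-- The idempotent semifield with underlying set `Γ` (a totally ordered commutative group with
zero), multiplication that of `Γ` and addition `a + b = max a b`. -/
@[ext]
structure MaxSemifield (Γ : Type) where
  /-- the element of `MaxSemifield Γ` given by an element of `Γ` -/
  of ::
  /-- the underlying element of `Γ` -/
  val : Γ

section

variable {Γ : Type} [LinearOrderedCommGroupWithZero Γ]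

instance : Add (MaxSemifield Γ) := ⟨fun a b => .of (max a.val b.val)⟩

instance : Zero (MaxSemifield Γ) := ⟨.of 0⟩

instance : Mul (MaxSemifield Γ) := ⟨fun a b => .of (a.val * b.val)⟩

instance : One (MaxSemifield Γ) := ⟨.of 1⟩

lemma val_add (a b : MaxSemifield Γ) : (a + b).val = max a.val b.val := rfl

lemma val_mul (a b : MaxSemifield Γ) : (a * b).val = a.val * b.val := rfl

lemma val_zero : (0 : MaxSemifield Γ).val = 0 := rfl

lemma val_one : (1 : MaxSemifield Γ).val = 1 := rfl

lemma mul_max' (a b c : Γ) : a * max b c = max (a * b) (a * c) := by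
  rcases le_total b c with h | h
  · rw [max_eq_right h, max_eq_right (mul_le_mul_right h a)]
  · rw [max_eq_left h, max_eq_left (mul_le_mul_right h a)]

noncomputable instance : CommSemiring (MaxSemifield Γ) where
  add_assoc a b c := MaxSemifield.ext (max_assoc a.val b.val c.val)
  zero_add a := MaxSemifield.ext (max_eq_right (zero_le (a := a.val)))
  add_zero a := MaxSemifield.ext (max_eq_left (zero_le (a := a.val)))
  add_comm a b := MaxSemifield.ext (max_comm a.val b.val)
  left_distrib a b c := MaxSemifield.ext (mul_max' a.val b.val c.val)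
  right_distrib a b c := MaxSemifield.ext (by
    rw [val_mul, val_add, val_add, val_mul, val_mul, mul_comm, mul_max', mul_comm c.val,
      mul_comm c.val])
  zero_mul a := MaxSemifield.ext (zero_mul a.val)
  mul_zero a := MaxSemifield.ext (mul_zero a.val)
  mul_assoc a b c := MaxSemifield.ext (mul_assoc a.val b.val c.val)
  one_mul a := MaxSemifield.ext (one_mul a.val)
  mul_one a := MaxSemifield.ext (mul_one a.val)
  mul_comm a b := MaxSemifield.ext (mul_comm a.val b.val)
  nsmul := nsmulRec
  npow := npowRec

lemma add_eq_right_iff (a b : MaxSemifield Γ) : a + b = b ↔ a.val ≤ b.val := by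
  rw [MaxSemifield.ext_iff, val_add, max_eq_right_iff]

lemma add_self' (a : MaxSemifield Γ) : a + a = a := MaxSemifield.ext (max_self _)

lemma eq_zero_iff (a : MaxSemifield Γ) : a = 0 ↔ a.val = 0 := by
  rw [MaxSemifield.ext_iff, val_zero]

lemma mul_eq_zero' (a b : MaxSemifield Γ) : a * b = 0 ↔ a = 0 ∨ b = 0 := by
  rw [eq_zero_iff, eq_zero_iff, eq_zero_iff, val_mul, mul_eq_zero]

lemma add_eq_zero' (a b : MaxSemifield Γ) : a + b = 0 ↔ a = 0 ∧ b = 0 := by
  rw [eq_zero_iff, eq_zero_iff, eq_zero_iff, val_add]
  constructor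
  · intro h
    exact ⟨le_zero_iff.mp ((le_max_left _ _).trans h.le),
      le_zero_iff.mp ((le_max_right _ _).trans h.le)⟩
  · rintro ⟨h1, h2⟩
    rw [h1, h2, max_self]

lemma one_ne_zero' : (1 : MaxSemifield Γ) ≠ 0 := by
  rw [Ne, eq_zero_iff, val_one]
  exact one_ne_zero

end

/-! ### The definitions -/

section

variable {K : Type} [Field K] {Γ : Type} [LinearOrderedCommGroupWithZero Γ]
  (v : Valuation K Γ) {M : Type} [AddCommMonoid M]

/-- `trop f = ∑ v(c_u) χ^u` for `f = ∑ c_u χ^u`. -/
noncomputable def trop (f : AddMonoidAlgebra K M) : AddMonoidAlgebra (MaxSemifield Γ) M :=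
  ofCoeff (f.coeff.mapRange (fun c => MaxSemifield.of (v c)) (MaxSemifield.ext (map_zero v)))

/-- The bend relations of the elements of `trop I`: `φ ∼ φ` with the term at `u₀` deleted, for `u₀`
in the support of `φ`. -/
def bendRel (I : Ideal (AddMonoidAlgebra K M)) (φ ψ : AddMonoidAlgebra (MaxSemifield Γ) M) :
    Prop :=
  ∃ f ∈ I, φ = trop v f ∧ ∃ u₀ ∈ φ.coeff.support, ψ = ofCoeff (φ.coeff.erase u₀)

/-- `A = S[M] / Bend(trop I)`, where `Bend(trop I)` is the smallest semiring congruence which
contains the bend relations of the elements of `trop I`. -/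
abbrev BendQuotient (I : Ideal (AddMonoidAlgebra K M)) : Type :=
  (ringConGen (bendRel v I)).Quotient

end

/-! ### Idempotent semirings -/

section

variable {B : Type} [CommSemiring B]

/-- the natural order of an idempotent semiring -/
def Ab (a b : B) : Prop := a + b = b

lemma Ab.trans {a b c : B} (h : Ab a b) (h' : Ab b c) : Ab a c := by
  unfold Ab at *
  rw [← h', ← add_assoc, h]

lemma Ab.antisymm {a b : B} (h : Ab a b) (h' : Ab b a) : a = b := by
  unfold Ab at *
  rw [← h, add_comm, h']

lemma Ab.mul_left {a b : B} (h : Ab a b) (c : B) : Ab (c * a) (c * b) := by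
  unfold Ab at *
  rw [← mul_add, h]

lemma Ab.mul {a b c d : B} (h : Ab a b) (h' : Ab c d) : Ab (a * c) (b * d) := by
  have h1 : Ab (a * c) (a * d) := h'.mul_left a
  have h2 : Ab (a * d) (b * d) := by
    rw [mul_comm a, mul_comm b]
    exact h.mul_left d
  exact h1.trans h2

lemma Ab.add {a b c : B} (h : Ab a c) (h' : Ab b c) : Ab (a + b) c := by
  unfold Ab at *
  rw [add_assoc, h', h]

lemma Ab.sum {ι : Type} (s : Finset ι) (t : ι → B) (c : B) (h : ∀ i ∈ s, Ab (t i) c) :
    Ab (∑ i ∈ s, t i) c := by
  classical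
  induction s using Finset.induction_on with
  | empty => exact zero_add _
  | insert a s ha ih =>
    rw [Finset.sum_insert ha]
    exact (h a (Finset.mem_insert_self _ _)).add (ih fun i hi => h i (Finset.mem_insert_of_mem hi))

lemma ab_natCast (a : B) (n : ℕ) (c : B) (h : Ab a c) : Ab (a * n) c := by
  induction n with
  | zero =>
    rw [Nat.cast_zero, mul_zero]
    exact zero_add c
  | succ n ih =>
    rw [Nat.cast_succ, mul_add, mul_one]
    exact ih.add h

variable (hB : ∀ a : B, a + a = a)

include hB

lemma Ab.refl (a : B) : Ab a a := hB a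

lemma Ab.pow {a b : B} (h : Ab a b) (n : ℕ) : Ab (a ^ n) (b ^ n) := by
  induction n with
  | zero => rw [pow_zero, pow_zero]; exact Ab.refl hB 1
  | succ n ih => rw [pow_succ, pow_succ]; exact ih.mul h

lemma ab_add_left (a b : B) : Ab a (a + b) := by
  unfold Ab
  rw [← add_assoc, hB]

lemma ab_add_right (a b : B) : Ab b (a + b) := by
  rw [add_comm]
  exact ab_add_left hB b a

lemma ab_le_sum {ι : Type} (s : Finset ι) (t : ι → B) (i : ι) (hi : i ∈ s) :
    Ab (t i) (∑ j ∈ s, t j) := by
  classical
  rw [← Finset.add_sum_erase s t hi]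
  exact ab_add_left hB _ _

/-- The key identity: `(∑ aᵢ)^(N + m) = (∑ aᵢ^m) (∑ aᵢ)^N` for some `N`. -/
lemma key_identity {ι : Type} (s : Finset ι) (a : ι → B) (m : ℕ) :
    ∃ N : ℕ, (∑ i ∈ s, a i) ^ (N + m) = (∑ i ∈ s, a i ^ m) * (∑ i ∈ s, a i) ^ N := by
  classical
  induction s using Finset.induction_on with
  | empty => exact ⟨1, by rw [Finset.sum_empty, Finset.sum_empty, pow_add, pow_one, zero_mul,
      zero_mul]⟩
  | insert b s hb ih =>
    obtain ⟨N, hN⟩ := ih
    rw [Finset.sum_insert hb, Finset.sum_insert hb]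
    set y := ∑ i ∈ s, a i with hy
    set P := ∑ i ∈ s, a i ^ m with hP
    refine ⟨N + m, ?_⟩
    apply Ab.antisymm
    · rw [add_pow]
      refine Ab.sum _ _ _ fun i hi => ?_
      rw [Finset.mem_range] at hi
      refine ab_natCast _ _ _ ?_
      have hle : ∀ p q : ℕ, p + q = N + m → Ab (a b ^ p * y ^ q) ((a b + y) ^ (N + m)) := by
        intro p q hpq
        rw [← hpq, pow_add]
        exact ((ab_add_left hB _ _).pow hB p).mul ((ab_add_right hB _ _).pow hB q)
      by_cases h : m ≤ i
      · have e : a b ^ i * y ^ (N + m + m - i) =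
            a b ^ m * (a b ^ (i - m) * y ^ (N + m + m - i)) := by
          rw [← mul_assoc, ← pow_add]
          congr 2
          omega
        rw [e]
        exact (ab_add_left hB _ _).mul (hle _ _ (by omega))
      · rw [not_le] at h
        have e : a b ^ i * y ^ (N + m + m - i) = P * (a b ^ i * y ^ (N + m - i)) := by
          have e1 : y ^ (N + m + m - i) = y ^ (N + m) * y ^ (m - i) := by
            rw [← pow_add]
            congr 1
            omega
          have e2 : y ^ (N + m - i) = y ^ N * y ^ (m - i) := by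
            rw [← pow_add]
            congr 1
            omega
          rw [e1, e2, hN]
          ring
        rw [e]
        exact (ab_add_right hB _ _).mul (hle _ _ (by omega))
    · have e : (a b + y) ^ (N + m + m) = (a b + y) ^ m * (a b + y) ^ (N + m) := by
        rw [← pow_add]
        congr 1
        omega
      rw [e]
      refine Ab.mul ?_ (Ab.refl hB _)
      refine Ab.add ((ab_add_left hB _ _).pow hB m) (Ab.sum _ _ _ fun i hi => ?_)
      exact ((ab_le_sum hB s a i hi).trans (ab_add_right hB _ _)).pow hB m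

end

/-! ### The map to `K`-subspaces of `K[M] / I` -/

section

variable {K : Type} [Field K] {Γ : Type} [LinearOrderedCommGroupWithZero Γ]
  (v : Valuation K Γ) {M : Type} [AddCommMonoid M] {I : Ideal (AddMonoidAlgebra K M)}
  {R : Type} [CommRing R] [Algebra K R] (π : AddMonoidAlgebra K M →ₐ[K] R)

/-- the class of `χ^u` in `R = K[M] / I` -/
noncomputable def chi (u : M) : R := π (single u 1)

lemma chi_add (u w : M) : chi π (u + w) = chi π u * chi π w := by
  rw [chi, chi, chi, ← map_mul, single_mul_single, one_mul]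

lemma mk_single (u : M) (c : K) : π (single u c) = c • chi π u := by
  rw [chi, ← map_smul, smul_single, smul_eq_mul, mul_one]

/-- the semiring homomorphism `∑ a_u χ^u ↦ span {χ^u : a_u ≠ 0}` -/
noncomputable def Wsp : AddMonoidAlgebra (MaxSemifield Γ) M →+*
    Submodule K R :=
  open Classical in
  liftNCRingHom
    { toFun := fun a => if a = 0 then ⊥ else 1
      map_one' := if_neg one_ne_zero'
      map_zero' := if_pos rfl
      map_mul' := fun a b => by
        by_cases ha : a = 0
        · rw [if_pos ha, Submodule.bot_mul, if_pos ((mul_eq_zero' a b).mpr (Or.inl ha))]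
        · by_cases hb : b = 0
          · rw [if_pos hb, Submodule.mul_bot, if_pos ((mul_eq_zero' a b).mpr (Or.inr hb))]
          · rw [if_neg ha, if_neg hb, if_neg (fun h => ((mul_eq_zero' a b).mp h).elim ha hb)]
            rw [one_mul]
      map_add' := fun a b => by
        rw [Submodule.add_eq_sup]
        by_cases ha : a = 0
        · rw [ha, zero_add, if_pos rfl, bot_sup_eq]
        · rw [if_neg ha, if_neg (fun h => ha ((add_eq_zero' a b).mp h).1)]
          by_cases hb : b = 0
          · rw [if_pos hb, sup_bot_eq]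
          · rw [if_neg hb, sup_idem] }
    { toFun := fun u => Submodule.span K {chi π u.toAdd}
      map_one' := by
        rw [Submodule.one_eq_span]
        have h : chi π (Multiplicative.toAdd 1) = 1 := map_one π
        rw [h]
      map_mul' := fun a b => by
        rw [toAdd_mul, chi_add, Submodule.span_mul_span, Set.singleton_mul_singleton] }
    (fun _ _ => Commute.all _ _)

lemma Wsp_single (u : M) (a : MaxSemifield Γ) (ha : a ≠ 0) :
    Wsp π (single u a) = Submodule.span K {chi π u} := by
  classical
  rw [Wsp, liftNCRingHom_single]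
  change (if a = 0 then ⊥ else 1) * Submodule.span K {chi π u} = _
  rw [if_neg ha, one_mul]

lemma add_le_iff' (N P Q : Submodule K R) :
    N + P ≤ Q ↔ N ≤ Q ∧ P ≤ Q := by
  rw [Submodule.add_eq_sup, sup_le_iff]

lemma sum_le_iff' {ι : Type} (s : Finset ι)
    (N : ι → Submodule K R) (Q : Submodule K R) :
    ∑ i ∈ s, N i ≤ Q ↔ ∀ i ∈ s, N i ≤ Q := by
  classical
  induction s using Finset.induction_on with
  | empty => simp
  | insert a s ha ih =>
    rw [Finset.sum_insert ha, add_le_iff', ih, Finset.forall_mem_insert]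

lemma Wsp_le_iff (φ : AddMonoidAlgebra (MaxSemifield Γ) M)
    (Q : Submodule K R) :
    Wsp π φ ≤ Q ↔ ∀ u ∈ φ.coeff.support, chi π u ∈ Q := by
  conv_lhs => rw [← sum_coeff_single φ]
  rw [Finsupp.sum, map_sum, sum_le_iff']
  refine forall₂_congr fun u hu => ?_
  rw [Wsp_single π u _ (Finsupp.mem_support_iff.mp hu), Submodule.span_le,
    Set.singleton_subset_iff]
  rfl

lemma chi_mem (φ : AddMonoidAlgebra (MaxSemifield Γ) M) (u : M) (hu : u ∈ φ.coeff.support) :
    chi π u ∈ Wsp π φ := (Wsp_le_iff π φ _).mp le_rfl u hu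

lemma Wsp_eq_span (φ : AddMonoidAlgebra (MaxSemifield Γ) M) :
    Wsp π φ = Submodule.span K (chi π '' (φ.coeff.support : Set M)) := by
  apply le_antisymm
  · rw [Wsp_le_iff]
    intro u hu
    exact Submodule.subset_span ⟨u, hu, rfl⟩
  · rw [Submodule.span_le]
    rintro _ ⟨u, hu, rfl⟩
    exact chi_mem π φ u hu

instance (φ : AddMonoidAlgebra (MaxSemifield Γ) M) : FiniteDimensional K (Wsp π φ) := by
  rw [Wsp_eq_span]
  exact FiniteDimensional.span_of_finite K (φ.coeff.support.finite_toSet.image _)

variable (hπ : ∀ f, π f = 0 ↔ f ∈ I)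

include hπ in
/-- the bend relations are in the kernel -/
lemma bend_le : ringConGen (bendRel v I) ≤ RingCon.ker (Wsp π) := by
  classical
  rw [RingCon.ringConGen_le]
  rintro φ ψ ⟨f, hf, rfl, u₀, hu₀, rfl⟩
  change Wsp π _ = Wsp π _
  apply le_antisymm
  · rw [Wsp_le_iff]
    intro u hu
    by_cases h : u = u₀
    · subst h
      have h1 : (f.coeff u) ≠ 0 := by
        intro h0
        rw [Finsupp.mem_support_iff] at hu
        apply hu
        change MaxSemifield.of (v (f.coeff u)) = 0
        rw [h0, map_zero]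
        rfl
      have h2 : π f = 0 := (hπ f).mpr hf
      rw [← single_add_erase u f, map_add, mk_single] at h2
      have h3 : chi π u = -((f.coeff u)⁻¹ • π (f.erase u)) := by
        rw [← add_eq_zero_iff_eq_neg]
        have := congrArg (fun z => (f.coeff u)⁻¹ • z) h2
        simpa [smul_add, smul_smul, inv_mul_cancel₀ h1] using this
      rw [h3]
      refine Submodule.neg_mem _ (Submodule.smul_mem _ _ ?_)
      rw [← sum_coeff_single (f.erase u), Finsupp.sum, map_sum]
      refine Submodule.sum_mem _ fun w hw => ?_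
      rw [mk_single]
      refine Submodule.smul_mem _ _ (chi_mem π _ w ?_)
      rw [coeff_erase, Finsupp.support_erase, Finset.mem_erase] at hw
      change w ∈ (Finsupp.erase u (trop v f).coeff).support
      rw [Finsupp.support_erase, Finset.mem_erase]
      refine ⟨hw.1, ?_⟩
      rw [Finsupp.mem_support_iff]
      intro h0
      have h4 : v (f.coeff w) = 0 := congrArg MaxSemifield.val h0
      exact (Finsupp.mem_support_iff.mp hw.2) ((map_eq_zero v).mp h4)
    · refine chi_mem π _ u ?_
      change u ∈ (Finsupp.erase u₀ (trop v f).coeff).support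
      rw [Finsupp.support_erase, Finset.mem_erase]
      exact ⟨h, hu⟩
  · rw [Wsp_le_iff]
    intro u hu
    refine chi_mem π _ u ?_
    change u ∈ (Finsupp.erase u₀ (trop v f).coeff).support at hu
    rw [Finsupp.support_erase, Finset.mem_erase] at hu
    exact hu.2

/-! ### Consequences of the bend relations -/

variable (I) in
/-- the class in `A` of an element of `S[M]` -/
noncomputable def cl : AddMonoidAlgebra (MaxSemifield Γ) M →+* BendQuotient v I :=
  (ringConGen (bendRel v I)).mk'

variable (I) in
lemma cl_surjective : Function.Surjective (cl v I) := RingCon.mk'_surjective _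

lemma S_idem (φ : AddMonoidAlgebra (MaxSemifield Γ) M) : φ + φ = φ := by
  ext u
  exact congrArg MaxSemifield.val (add_self' (φ.coeff u))

variable (I) in
lemma A_idem (x : BendQuotient v I) : x + x = x := by
  obtain ⟨φ, rfl⟩ := cl_surjective v I x
  rw [← map_add, S_idem]

lemma ab_of_coeff (φ ψ : AddMonoidAlgebra (MaxSemifield Γ) M)
    (h : ∀ u, (φ.coeff u).val ≤ (ψ.coeff u).val) : Ab φ ψ := by
  refine AddMonoidAlgebra.ext ?_
  ext u
  exact congrArg MaxSemifield.val ((add_eq_right_iff (φ.coeff u) (ψ.coeff u)).mpr (h u))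

lemma Ab.map {B C : Type} [CommSemiring B] [CommSemiring C] (f : B →+* C) {a b : B}
    (h : Ab a b) : Ab (f a) (f b) := by
  unfold Ab at *
  rw [← map_add, h]

variable (I) in
/-- A term `d χ^m` is absorbed by `φ` if `χ^m - g ∈ I` with `d v(g_u) ≤ φ_u` for all `u`. -/
lemma absorb (φ : AddMonoidAlgebra (MaxSemifield Γ) M) (m : M) (d : MaxSemifield Γ)
    (g : AddMonoidAlgebra K M) (hg : single m 1 - g ∈ I)
    (hd : ∀ u, d.val * v (g.coeff u) ≤ (φ.coeff u).val) :
    Ab (cl v I (single m d)) (cl v I φ) := by
  classical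
  by_cases hv : v (g.coeff m) < 1
  · set f : AddMonoidAlgebra K M := single m 1 - g with hf
    have hfm : v (f.coeff m) = 1 := by
      rw [hf, coeff_sub, Finsupp.sub_apply, coeff_single, Finsupp.single_eq_same]
      rw [Valuation.map_sub_eq_of_lt_left]
      · exact map_one v
      · rwa [map_one]
    have hfu : ∀ u, u ≠ m → v (f.coeff u) = v (g.coeff u) := by
      intro u hu
      rw [hf, coeff_sub, Finsupp.sub_apply, coeff_single, Finsupp.single_eq_of_ne hu, zero_sub,
        Valuation.map_neg]
    have hmem : m ∈ (trop v f).coeff.support := by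
      rw [Finsupp.mem_support_iff]
      intro h0
      have h1 : v (f.coeff m) = 0 := congrArg MaxSemifield.val h0
      rw [hfm] at h1
      exact one_ne_zero h1
    have hb : cl v I (trop v f) = cl v I ((trop v f).erase m) :=
      (RingCon.eq _).mpr (RingCon.le_ringConGen _ _ ⟨f, hg, rfl, m, hmem, rfl⟩)
    have h1 : Ab (single m d) (single 0 d * trop v f) := by
      refine ab_of_coeff _ _ fun u => ?_
      rw [coeff_single_zero_mul]
      by_cases hu : u = m
      · subst hu
        rw [coeff_single, Finsupp.single_eq_same]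
        change d.val ≤ d.val * v (f.coeff u)
        rw [hfm, mul_one]
      · rw [coeff_single, Finsupp.single_eq_of_ne hu]
        exact zero_le
    have h2 : Ab (single 0 d * (trop v f).erase m) φ := by
      refine ab_of_coeff _ _ fun u => ?_
      rw [coeff_single_zero_mul, coeff_erase]
      by_cases hu : u = m
      · subst hu
        rw [Finsupp.erase_same, mul_zero]
        exact zero_le
      · rw [Finsupp.erase_ne hu]
        change d.val * v (f.coeff u) ≤ _
        rw [hfu u hu]
        exact hd u
    refine (Ab.map (cl v I) h1).trans ?_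
    rw [map_mul, hb, ← map_mul]
    exact Ab.map (cl v I) h2
  · rw [not_lt] at hv
    refine Ab.map _ (ab_of_coeff _ _ fun u => ?_)
    by_cases hu : u = m
    · subst hu
      rw [coeff_single, Finsupp.single_eq_same]
      refine le_trans ?_ (hd u)
      calc d.val = d.val * 1 := (mul_one _).symm
        _ ≤ d.val * v (g.coeff u) := by gcongr
    · rw [coeff_single, Finsupp.single_eq_of_ne hu]
      exact zero_le

/-- the map `A → {subspaces of K[M] / I}` -/
noncomputable def Wbar : BendQuotient v I →+* Submodule K R :=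
  RingCon.lift _ (Wsp π) (bend_le v π hπ)

lemma Wbar_cl (φ : AddMonoidAlgebra (MaxSemifield Γ) M) :
    Wbar v π hπ (cl v I φ) = Wsp π φ := rfl

lemma choose_small {ι : Type} (T : Finset ι) (α β : ι → Γ) (hβ : ∀ t ∈ T, β t ≠ 0) :
    ∃ d : Γ, d ≠ 0 ∧ ∀ t ∈ T, d * α t ≤ β t := by
  classical
  induction T using Finset.induction_on with
  | empty => exact ⟨1, one_ne_zero, by simp⟩
  | insert a T ha ih =>
    obtain ⟨d, hd0, hd⟩ := ih fun t ht => hβ t (Finset.mem_insert_of_mem ht)
    by_cases hα : α a = 0
    · refine ⟨d, hd0, fun t ht => ?_⟩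
      rcases Finset.mem_insert.mp ht with rfl | ht
      · rw [hα, mul_zero]
        exact zero_le
      · exact hd t ht
    · refine ⟨min d (β a / α a), ?_, fun t ht => ?_⟩
      · rcases min_choice d (β a / α a) with h | h
        · rw [h]
          exact hd0
        · rw [h]
          exact div_ne_zero (hβ a (Finset.mem_insert_self _ _)) hα
      · rcases Finset.mem_insert.mp ht with rfl | ht
        · calc min d (β t / α t) * α t ≤ (β t / α t) * α t := by
                gcongr
                exact min_le_right _ _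
            _ = β t := div_mul_cancel₀ _ hα
        · exact le_trans (by gcongr; exact min_le_left _ _) (hd t ht)

variable (hmono : ∀ (u : M) (c : K), c ≠ 0 → single u c ∉ I)
  (hbin : ∀ (u w : M) (c d : K), u ≠ w → c ≠ 0 → d ≠ 0 → single u c + single w d ∉ I)

include hmono hπ in
lemma chi_ne_zero (u : M) : chi π u ≠ 0 := by
  intro h
  exact hmono u 1 one_ne_zero ((hπ _).mp h)

include hmono hbin hπ in
lemma not_mem_span (u w : M) (h : u ≠ w) : chi π w ∉ Submodule.span K {chi π u} := by
  intro hmem
  obtain ⟨c, hc⟩ := Submodule.mem_span_singleton.mp hmem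
  have hc0 : c ≠ 0 := by
    rintro rfl
    rw [zero_smul] at hc
    exact chi_ne_zero π hπ hmono w hc.symm
  refine hbin u w c (-1) h hc0 (neg_ne_zero.mpr one_ne_zero) ?_
  rw [← hπ, map_add, mk_single, mk_single, hc, neg_one_smul,
    add_neg_cancel]

include hmono hbin hπ in
lemma no_two [IsDomain R] (φ : AddMonoidAlgebra (MaxSemifield Γ) M)
    (hx : ∀ g h : BendQuotient v I, cl v I φ * g = cl v I φ * h → g = h) (u₁ u₂ : M)
    (h₁ : u₁ ∈ φ.coeff.support) (h₂ : u₂ ∈ φ.coeff.support) (hne : u₁ ≠ u₂) : False := by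
  classical
  have hx' : ∀ (N : ℕ) (g h : BendQuotient v I), cl v I φ ^ N * g = cl v I φ ^ N * h → g = h := by
    intro N
    induction N with
    | zero =>
      intro g h hgh
      rwa [pow_zero, one_mul, one_mul] at hgh
    | succ N ih =>
      intro g h hgh
      rw [pow_succ', mul_assoc, mul_assoc] at hgh
      exact ih g h (hx _ _ hgh)
  have hpow : ∀ m : ℕ, cl v I φ ^ m =
      ∑ u ∈ φ.coeff.support, cl v I (single u (φ.coeff u)) ^ m := by
    intro m
    obtain ⟨N, hN⟩ := key_identity (B := AddMonoidAlgebra (MaxSemifield Γ) M) S_idem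
      φ.coeff.support (fun u => single u (φ.coeff u)) m
    have hφ : ∑ u ∈ φ.coeff.support, single u (φ.coeff u) = φ := sum_coeff_single φ
    rw [hφ] at hN
    have h := congrArg (cl v I) hN
    rw [map_mul, map_pow, map_pow, map_sum, pow_add, mul_comm _ (cl v I φ ^ N)] at h
    rw [hx' N _ _ h]
    exact Finset.sum_congr rfl fun u _ => map_pow _ _ _
  have hdim : ∀ m : ℕ, Module.finrank K (Wsp π φ ^ m : Submodule K _) ≤ φ.coeff.support.card := by
    intro m
    have h := congrArg (Wbar v π hπ) (hpow m)
    rw [map_pow, map_sum, Wbar_cl] at h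
    have hle : Wsp π φ ^ m ≤ Submodule.span K
        ((φ.coeff.support.image fun u => chi π u ^ m : Finset R) :
          Set R) := by
      rw [h, sum_le_iff']
      intro u hu
      rw [map_pow, Wbar_cl, Wsp_single π u _ (Finsupp.mem_support_iff.mp hu), Submodule.span_pow,
        Set.singleton_pow]
      refine Submodule.span_mono ?_
      rw [Set.singleton_subset_iff, Finset.mem_coe, Finset.mem_image]
      exact ⟨u, hu, rfl⟩
    exact (Submodule.finrank_mono hle).trans ((finrank_span_finset_le_card _).trans
      Finset.card_image_le)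
  have hfin : ∀ m : ℕ, FiniteDimensional K (Wsp π φ ^ m : Submodule K _) := by
    intro m
    rw [← map_pow]
    infer_instance
  set a := chi π u₁ with ha
  have ha0 : a ≠ 0 := chi_ne_zero π hπ hmono u₁
  set L : R →ₗ[K] R :=
    LinearMap.mulLeft K a with hL
  have hLinj : Function.Injective L := by
    intro y z hyz
    exact mul_left_cancel₀ ha0 hyz
  have hmap : ∀ m : ℕ, (Wsp π φ ^ m : Submodule K _).map L ≤ Wsp π φ ^ (m + 1) := by
    intro m
    rintro _ ⟨y, hy, rfl⟩
    rw [pow_succ']
    exact Submodule.mul_mem_mul (chi_mem π φ u₁ h₁) hy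
  have hrank : ∀ m : ℕ, Module.finrank K ((Wsp π φ ^ m : Submodule K _).map L) =
      Module.finrank K (Wsp π φ ^ m : Submodule K _) := fun m =>
    (LinearEquiv.finrank_eq (Submodule.equivMapOfInjective L hLinj _)).symm
  have hstab : ∃ m : ℕ, Module.finrank K (Wsp π φ ^ (m + 1) : Submodule K _) ≤
      Module.finrank K (Wsp π φ ^ m : Submodule K _) := by
    by_contra hcon
    push Not at hcon
    have h : ∀ m : ℕ, m ≤ Module.finrank K (Wsp π φ ^ m : Submodule K _) := by
      intro m
      induction m with
      | zero => exact Nat.zero_le _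
      | succ m ih => exact ih.trans_lt (hcon m)
    have := (h (φ.coeff.support.card + 1)).trans (hdim _)
    omega
  obtain ⟨m, hm⟩ := hstab
  have hfin1 := hfin (m + 1)
  have heq : (Wsp π φ ^ m : Submodule K _).map L = Wsp π φ ^ (m + 1) :=
    Submodule.eq_of_le_of_finrank_le (hmap m) (by rw [hrank]; exact hm)
  set ψ := φ ^ m with hψ
  set θ := ψ * single u₁ 1 with hθ
  have hθ0 : ∀ i ∈ ψ.coeff.support, θ.coeff (i + u₁) ≠ 0 := by
    intro i hi h0
    have h : Ab (single (i + u₁) (ψ.coeff i)) θ := by
      unfold Ab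
      have e : θ = single (i + u₁) (ψ.coeff i) + (ψ.erase i) * single u₁ 1 := by
        rw [hθ]
        conv_lhs => rw [← single_add_erase i ψ]
        rw [add_mul, single_mul_single, mul_one]
      rw [e, ← add_assoc, S_idem]
    have h' := congrArg (fun z => z.coeff (i + u₁)) h
    simp only [coeff_add, coeff_single, Finsupp.add_apply, Finsupp.single_eq_same] at h'
    rw [h0, add_zero] at h'
    exact (Finsupp.mem_support_iff.mp hi) h'
  have hg : ∀ w ∈ ψ.coeff.support, ∃ g : AddMonoidAlgebra K M,
      single (w + u₂) 1 - g ∈ I ∧ ∀ u, g.coeff u ≠ 0 → θ.coeff u ≠ 0 := by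
    intro w hw
    have h1 : chi π u₂ * chi π w ∈ (Wsp π φ ^ m : Submodule K _).map L := by
      rw [heq, pow_succ']
      refine Submodule.mul_mem_mul (chi_mem π φ u₂ h₂) ?_
      rw [← map_pow]
      exact chi_mem π _ w hw
    obtain ⟨y, hy, hay⟩ := h1
    rw [← map_pow, ← hψ, Wsp_eq_span] at hy
    obtain ⟨c, hc⟩ := (Submodule.mem_span_image_finset_iff_exists_fun K).mp hy
    refine ⟨∑ i : ψ.coeff.support, single (i.1 + u₁) (c i), ?_, ?_⟩
    · rw [← hπ, map_sub, map_sum, sub_eq_zero]
      have e1 : π (single (w + u₂) 1) = chi π u₂ * chi π w := by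
        rw [mul_comm, ← chi_add]
        rfl
      rw [e1, ← hay, ← hc]
      change a * _ = _
      rw [Finset.mul_sum]
      refine Finset.sum_congr rfl fun i _ => ?_
      rw [mk_single, chi_add, mul_smul_comm, mul_comm]
    · intro u hu
      rw [coeff_sum, Finsupp.finsetSum_apply] at hu
      obtain ⟨i, hi, hiu⟩ := Finset.exists_ne_zero_of_sum_ne_zero hu
      have : u = i.1 + u₁ := by
        by_contra h
        rw [coeff_single, Finsupp.single_eq_of_ne h] at hiu
        exact hiu rfl
      rw [this]
      exact hθ0 i.1 i.2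
  choose! g hgI hgθ using hg
  obtain ⟨d, hd0, hd⟩ := choose_small
    (ψ.coeff.support.sigma fun w => (g w).coeff.support)
    (fun t => (ψ.coeff t.1).val * v ((g t.1).coeff t.2)) (fun t => (θ.coeff t.2).val) (by
      rintro ⟨w, u⟩ ht
      rw [Finset.mem_sigma] at ht
      intro h0
      exact hgθ w ht.1 u (Finsupp.mem_support_iff.mp ht.2) ((eq_zero_iff _).mpr h0))
  have habs : Ab (cl v I (ψ * single u₂ (MaxSemifield.of d))) (cl v I θ) := by
    have e : ψ * single u₂ (MaxSemifield.of d) =
        ∑ w ∈ ψ.coeff.support, single (w + u₂) (ψ.coeff w * MaxSemifield.of d) := by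
      conv_lhs => rw [← sum_coeff_single ψ]
      rw [Finsupp.sum, Finset.sum_mul]
      exact Finset.sum_congr rfl fun w _ => single_mul_single _ _ _ _
    rw [e, map_sum]
    refine Ab.sum _ _ _ fun w hw => absorb v I θ (w + u₂) _ (g w) (hgI w hw) fun u => ?_
    rw [val_mul]
    by_cases hu : (g w).coeff u = 0
    · rw [hu, map_zero, mul_zero]
      exact zero_le
    · have := hd ⟨w, u⟩ (Finset.mem_sigma.mpr ⟨hw, Finsupp.mem_support_iff.mpr hu⟩)
      calc (ψ.coeff w).val * d * v ((g w).coeff u) = d * ((ψ.coeff w).val * v ((g w).coeff u)) := by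
            rw [mul_comm _ d, mul_assoc]
        _ ≤ _ := this
  have hfinal : cl v I (single u₂ (MaxSemifield.of d)) + cl v I (single u₁ 1) =
      cl v I (single u₁ 1) := by
    refine hx' m _ _ ?_
    unfold Ab at habs
    rw [hθ, map_mul, map_mul, hψ, map_pow] at habs
    rw [mul_add]
    exact habs
  have hW := congrArg (Wbar v π hπ) hfinal
  have hd0' : MaxSemifield.of d ≠ 0 := by
    rw [Ne, eq_zero_iff]
    exact hd0
  rw [map_add, Wbar_cl, Wbar_cl, Wsp_single π u₂ _ hd0', Wsp_single π u₁ _ one_ne_zero'] at hW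
  refine not_mem_span π hπ hmono hbin u₁ u₂ hne ?_
  have h3 : Submodule.span K {chi π u₂} ≤ Submodule.span K {chi π u₁} :=
    ((add_le_iff' _ _ _).mp hW.le).1
  exact h3 (Submodule.mem_span_singleton_self _)

end

/-- **Q1 of MP_58a9d8_ag**, for an arbitrary prime ideal `I` of `K[M]` (`M` any commutative monoid)
which contains neither a monomial nor a binomial: every cancellative element of
`A = S[M] / Bend(trop I)` is the class of a term. -/
theorem result {K : Type} [Field K] {Γ : Type} [LinearOrderedCommGroupWithZero Γ]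
    (v : Valuation K Γ) {M : Type} [AddCommMonoid M] (I : Ideal (AddMonoidAlgebra K M))
    (hI : I.IsPrime)
    (hmono : ∀ (u : M) (c : K), c ≠ 0 → single u c ∉ I)
    (hbin : ∀ (u w : M) (c d : K), u ≠ w → c ≠ 0 → d ≠ 0 → single u c + single w d ∉ I)
    (x : BendQuotient v I) (hx : ∀ g h : BendQuotient v I, x * g = x * h → g = h) :
    ∃ (u : M) (a : MaxSemifield Γ), a ≠ 0 ∧
      x = ((single u a : AddMonoidAlgebra (MaxSemifield Γ) M) : BendQuotient v I) := by
  classical
  have hdom : IsDomain (AddMonoidAlgebra K M ⧸ I) := Ideal.Quotient.isDomain I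
  let π : AddMonoidAlgebra K M →ₐ[K] (AddMonoidAlgebra K M ⧸ I) := Ideal.Quotient.mkₐ K I
  have hπ : ∀ f, π f = 0 ↔ f ∈ I := fun f => Ideal.Quotient.eq_zero_iff_mem
  obtain ⟨φ, rfl⟩ := cl_surjective v I x
  have hcard : φ.coeff.support.card ≤ 1 := by
    rw [Finset.card_le_one]
    intro u₁ h₁ u₂ h₂
    by_contra hne
    exact no_two v π hπ hmono hbin φ hx u₁ u₂ h₁ h₂ hne
  rcases Nat.le_one_iff_eq_zero_or_eq_one.mp hcard with h | h
  · exfalso
    rw [Finset.card_eq_zero, Finsupp.support_eq_empty] at h
    have h0 : φ = 0 := coeff_injective h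
    rw [h0, map_zero] at hx
    have h1 := hx 0 1 (by rw [zero_mul, zero_mul])
    have h2 := congrArg (Wbar v π hπ) h1
    rw [map_zero, map_one] at h2
    have h3 : (1 : AddMonoidAlgebra K M ⧸ I) ∈
        (0 : Submodule K (AddMonoidAlgebra K M ⧸ I)) := by
      rw [h2]
      exact Submodule.one_le.mp le_rfl
    exact one_ne_zero h3
  · rw [Finset.card_eq_one] at h
    obtain ⟨u, hu⟩ := h
    refine ⟨u, φ.coeff u, ?_, ?_⟩
    · rw [← Finsupp.mem_support_iff, hu]
      exact Finset.mem_singleton_self u
    · change cl v I φ = cl v I _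
      congr 1
      conv_lhs => rw [← sum_coeff_single φ]
      rw [Finsupp.sum, hu, Finset.sum_singleton]

end Pool.Agent.Results.MP_58a9d8_ag.CancellativeTerms
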